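import Pool.Agent.Helper10.QRH.StB

/-! Module QRH-B4: lattice points `b m` in a short interval with divisibility conditions. -/

set_option autoImplicit false
open Filter Topology
open scoped Classical

namespace Pool.Agent.Helper96.QRH

open Pool.Agent.Helper10.QRH

/-- integers `m` with `x ≤ c m < x + h` -/
theorem mem_Ioc_div (x h c m : ℕ) (hx : 1 ≤ x) (hc : 0 < c) :
    m ∈ Finset.Ioc ((x - 1) / c) ((x + h - 1) / c) ↔ x ≤ c * m ∧ c * m < x + h := by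
  rw [Finset.mem_Ioc, Nat.div_lt_iff_lt_mul hc, Nat.le_div_iff_mul_le hc, mul_comm m c]
  omega

/-- the count for a fixed `b` -/
theorem count_m (x h b d : ℕ) (hx : 1 ≤ x) (hb : 0 < b) (hd : 0 < d) :
    ((Finset.range (x + h)).filter (fun m => d ∣ m ∧ x ≤ b * m ∧ b * m < x + h)).card =
      (x + h - 1) / (b * d) - (x - 1) / (b * d) := by
  rw [← Nat.card_Ioc]
  symm
  refine Finset.card_bij (fun m _ => d * m) ?_ ?_ ?_
  · intro m hm
    rw [mem_Ioc_div x h (b * d) m hx (Nat.mul_pos hb hd), mul_assoc] at hm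
    rw [Finset.mem_filter, Finset.mem_range]
    refine ⟨?_, Dvd.intro m rfl, hm.1, hm.2⟩
    calc d * m ≤ b * (d * m) := Nat.le_mul_of_pos_left _ hb
      _ < x + h := hm.2
  · intro m _ m' _ hmm
    exact Nat.eq_of_mul_eq_mul_left hd hmm
  · intro m hm
    rw [Finset.mem_filter] at hm
    obtain ⟨_, ⟨m', rfl⟩, h1, h2⟩ := hm
    refine ⟨m', ?_, rfl⟩
    rw [mem_Ioc_div x h (b * d) m' hx (Nat.mul_pos hb hd), mul_assoc]
    exact ⟨h1, h2⟩

/-- the set of lattice points -/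
noncomputable def FF (x h D d1 d2 : ℕ) : Finset (ℕ × ℕ) :=
  ((Finset.Ioc D (2 * D)) ×ˢ (Finset.range (x + h))).filter (fun y : ℕ × ℕ =>
        d1 ∣ y.1 ∧ d2 ∣ y.2 ∧ x ≤ y.1 * y.2 ∧ y.1 * y.2 < x + h)

theorem card_FF (x h D d1 d2 : ℕ) (hx : 1 ≤ x) (h1 : 0 < d1) (h2 : 0 < d2) :
    (FF x h D d1 d2).card = ∑ b ∈ Finset.Ioc (D / d1) (2 * D / d1),
      ((x + h - 1) / (d1 * d2 * b) - (x - 1) / (d1 * d2 * b)) := by
  unfold FF
  rw [Finset.card_filter, Finset.sum_product]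
  have e1 : ∀ b ∈ Finset.Ioc D (2 * D), ∑ m ∈ Finset.range (x + h),
      (if d1 ∣ b ∧ d2 ∣ m ∧ x ≤ b * m ∧ b * m < x + h then 1 else 0) =
      if d1 ∣ b then (x + h - 1) / (b * d2) - (x - 1) / (b * d2) else 0 := by
    intro b hb
    have hb0 : 0 < b := by
      have := (Finset.mem_Ioc.1 hb).1
      omega
    by_cases hd : d1 ∣ b
    · rw [if_pos hd, ← count_m x h b d2 hx hb0 h2, Finset.card_filter]
      refine Finset.sum_congr rfl fun m _ => ?_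
      simp [hd]
    · rw [if_neg hd]
      refine Finset.sum_eq_zero fun m _ => ?_
      rw [if_neg]
      tauto
  rw [Finset.sum_congr rfl e1, ← Finset.sum_filter]
  symm
  refine Finset.sum_bij (fun b _ => d1 * b) ?_ ?_ ?_ ?_
  · intro b hb
    rw [Finset.mem_Ioc, Nat.div_lt_iff_lt_mul h1, Nat.le_div_iff_mul_le h1] at hb
    rw [Finset.mem_filter, Finset.mem_Ioc, mul_comm d1 b]
    exact ⟨hb, Dvd.intro_left b rfl⟩
  · intro b _ b' _ hbb
    exact Nat.eq_of_mul_eq_mul_left h1 hbb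
  · intro b hb
    rw [Finset.mem_filter, Finset.mem_Ioc] at hb
    obtain ⟨hb1, b', rfl⟩ := hb
    refine ⟨b', ?_, rfl⟩
    rw [Finset.mem_Ioc, Nat.div_lt_iff_lt_mul h1, Nat.le_div_iff_mul_le h1, mul_comm b' d1]
    exact hb1
  · intro b _
    have : d1 * b * d2 = d1 * d2 * b := by ring
    rw [this]

/-- upper bound for the difference of two quotients -/
theorem diff_le (x h c : ℕ) (hx : 1 ≤ x) (hc : 0 < c) :
    (((x + h - 1) / c - (x - 1) / c : ℕ) : ℝ) ≤ h / c + 1 := by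
  have hc' : (0 : ℝ) < c := by exact_mod_cast hc
  have hle : (x - 1) / c ≤ (x + h - 1) / c := Nat.div_le_div_right (by omega)
  rw [Nat.cast_sub hle]
  have e1 : (((x + h - 1) / c : ℕ) : ℝ) ≤ ((x + h - 1 : ℕ) : ℝ) / c := Nat.cast_div_le
  have e2 : ((x - 1 : ℕ) : ℝ) / c - 1 ≤ (((x - 1) / c : ℕ) : ℝ) := by
    have := Nat.lt_floor_add_one (((x - 1 : ℕ) : ℝ) / c)
    rw [Nat.floor_div_eq_div] at this
    linarith
  have e3 : ((x + h - 1 : ℕ) : ℝ) = ((x - 1 : ℕ) : ℝ) + h := by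
    have : x + h - 1 = (x - 1) + h := by omega
    rw [this]; push_cast; rfl
  rw [e3, add_div] at e1
  linarith

/-- exact formula for the difference of two quotients -/
theorem diff_eq (x h c b : ℕ) (hx : 1 ≤ x) (hc : 0 < c) (hb : 0 < b) :
    (((x + h - 1) / (c * b) - (x - 1) / (c * b) : ℕ) : ℝ) =
      h / (c * b) - psi1 ((((x + h - 1 : ℕ) : ℝ) / c) / b) +
        psi1 ((((x - 1 : ℕ) : ℝ) / c) / b) := by
  have hle : (x - 1) / (c * b) ≤ (x + h - 1) / (c * b) := Nat.div_le_div_right (by omega)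
  rw [Nat.cast_sub hle]
  have key : ∀ y : ℕ, ((y / (c * b) : ℕ) : ℝ) = ((y : ℝ) / c) / b - 1 / 2 -
      psi1 (((y : ℝ) / c) / b) := by
    intro y
    unfold psi1
    have h1 : ((y : ℝ) / c) / b = (y : ℝ) / ((c * b : ℕ) : ℝ) := by
      push_cast; rw [div_div]
    rw [h1]
    have h2 : (⌊(y : ℝ) / ((c * b : ℕ) : ℝ)⌋ : ℝ) = ((y / (c * b) : ℕ) : ℝ) := by
      rw [← natCast_floor_eq_intCast_floor (by positivity), Nat.floor_div_eq_div]
    rw [Int.fract, h2]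
    ring
  rw [key, key]
  have e3 : ((x + h - 1 : ℕ) : ℝ) = ((x - 1 : ℕ) : ℝ) + h := by
    have : x + h - 1 = (x - 1) + h := by omega
    rw [this]; push_cast; rfl
  have e4 : (((x + h - 1 : ℕ) : ℝ) / c) / b = (((x - 1 : ℕ) : ℝ) / c) / b + h / (c * b) := by
    rw [e3, add_div, add_div, div_div (h : ℝ)]
  rw [e4]
  ring

/-- case (i) -/
theorem case_i (x h D d1 d2 : ℕ) (hx : 1 ≤ x) (h1 : 0 < d1) (h2 : 0 < d2) (hD : 0 < D) :
    ((FF x h D d1 d2).card : ℝ) ≤ 2 * h / (d1 * d2) + 2 * D / d1 := by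
  have h1' : (0 : ℝ) < d1 := by exact_mod_cast h1
  have h2' : (0 : ℝ) < d2 := by exact_mod_cast h2
  have hD' : (0 : ℝ) < D := by exact_mod_cast hD
  rw [card_FF x h D d1 d2 hx h1 h2, Nat.cast_sum]
  have hterm : ∀ b ∈ Finset.Ioc (D / d1) (2 * D / d1),
      (((x + h - 1) / (d1 * d2 * b) - (x - 1) / (d1 * d2 * b) : ℕ) : ℝ) ≤ h / (d2 * D) + 1 := by
    intro b hb
    rw [Finset.mem_Ioc, Nat.div_lt_iff_lt_mul h1] at hb
    have hb0 : 0 < b := by
      rcases Nat.eq_zero_or_pos b with rfl | h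
      · simp at hb
      · exact h
    have hb0' : (0 : ℝ) < b := by exact_mod_cast hb0
    refine (diff_le x h _ hx (by positivity)).trans ?_
    have : (D : ℝ) ≤ b * d1 := by exact_mod_cast hb.1.le
    have e : (h : ℝ) / ((d1 * d2 * b : ℕ) : ℝ) ≤ h / (d2 * D) := by
      push_cast
      refine div_le_div_of_nonneg_left (Nat.cast_nonneg _) (by positivity) ?_
      nlinarith
    linarith
  refine (Finset.sum_le_sum hterm).trans ?_
  rw [Finset.sum_const, nsmul_eq_mul]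
  have hcard : ((Finset.Ioc (D / d1) (2 * D / d1)).card : ℝ) ≤ 2 * D / d1 := by
    rw [Nat.card_Ioc]
    have e1 : ((2 * D / d1 - D / d1 : ℕ) : ℝ) ≤ ((2 * D / d1 : ℕ) : ℝ) := by
      exact_mod_cast Nat.sub_le _ _
    have e2 : ((2 * D / d1 : ℕ) : ℝ) ≤ ((2 * D : ℕ) : ℝ) / d1 := Nat.cast_div_le
    push_cast at e2
    linarith
  calc ((Finset.Ioc (D / d1) (2 * D / d1)).card : ℝ) * (h / (d2 * D) + 1)
      ≤ 2 * D / d1 * (h / (d2 * D) + 1) := mul_le_mul_of_nonneg_right hcard (by positivity)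
    _ = 2 * h / (d1 * d2) + 2 * D / d1 := by field_simp

/-- case (ii) -/
theorem case_ii (x h D d1 d2 : ℕ) (hx : 1 ≤ x) (hh : h ≤ x) (h1 : 0 < d1) (h2 : 0 < d2)
    (hD : 0 < D) :
    ((FF x h D d1 d2).card : ℝ) ≤ 4 * h / (d1 * d2) + 2 * x / (D * d2) := by
  have h1' : (0 : ℝ) < d1 := by exact_mod_cast h1
  have h2' : (0 : ℝ) < d2 := by exact_mod_cast h2
  have hD' : (0 : ℝ) < D := by exact_mod_cast hD
  have hx' : (0 : ℝ) < x := by exact_mod_cast hx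
  set R : ℝ := 2 * D * h / (d1 * x) + 1 with hR
  have hR0 : 0 ≤ R := by positivity
  -- fibres
  have hfib : ∀ m ∈ (FF x h D d1 d2).image Prod.snd,
      ((FF x h D d1 d2).filter (fun y => y.2 = m)).card ≤ ⌊R⌋₊ := by
    intro m hm
    rw [Finset.mem_image] at hm
    obtain ⟨⟨b0, m0⟩, hb0, rfl⟩ := hm
    simp only [FF, Finset.mem_filter, Finset.mem_product, Finset.mem_Ioc, Finset.mem_range] at hb0
    obtain ⟨⟨⟨hbD, hb2D⟩, _⟩, _, _, hxb, _⟩ := hb0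
    have hm0 : 0 < m0 := by
      rcases Nat.eq_zero_or_pos m0 with rfl | h
      · omega
      · exact h
    have hm0' : (0 : ℝ) < m0 := by exact_mod_cast hm0
    have hc : 0 < d1 * m0 := Nat.mul_pos h1 hm0
    have hle : ((FF x h D d1 d2).filter (fun y => y.2 = m0)).card ≤
        (Finset.Ioc ((x - 1) / (d1 * m0)) ((x + h - 1) / (d1 * m0))).card := by
      refine Finset.card_le_card_of_injOn (fun y => y.1 / d1) ?_ ?_
      · intro y hy
        simp only [FF, Finset.coe_filter, Finset.mem_filter, Finset.mem_product, Finset.mem_Ioc,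
          Finset.mem_range, Set.mem_ofPred_eq] at hy
        obtain ⟨⟨⟨_, _⟩, ⟨b', hb'⟩, _, hy1, hy2⟩, hy3⟩ := hy
        refine Finset.mem_coe.2 ((mem_Ioc_div x h (d1 * m0) _ hx hc).2 ?_)
        simp only
        rw [hb', Nat.mul_div_cancel_left _ h1]
        rw [hb', hy3] at hy1 hy2
        have : d1 * m0 * b' = d1 * b' * m0 := by ring
        rw [this]
        exact ⟨hy1, hy2⟩
      · intro y hy z hz hyz
        simp only [FF, Finset.coe_filter, Finset.mem_filter, Finset.mem_product, Finset.mem_Ioc,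
          Finset.mem_range, Set.mem_ofPred_eq] at hy hz
        obtain ⟨⟨⟨_, _⟩, ⟨b', hb'⟩, _, _, _⟩, hy3⟩ := hy
        obtain ⟨⟨⟨_, _⟩, ⟨c', hc'⟩, _, _, _⟩, hz3⟩ := hz
        simp only at hyz
        rw [hb', hc', Nat.mul_div_cancel_left _ h1, Nat.mul_div_cancel_left _ h1] at hyz
        refine Prod.ext ?_ (hy3.trans hz3.symm)
        rw [hb', hc', hyz]
    refine Nat.le_floor ?_
    have hle' : (((FF x h D d1 d2).filter (fun y => y.2 = m0)).card : ℝ) ≤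
        ((Finset.Ioc ((x - 1) / (d1 * m0)) ((x + h - 1) / (d1 * m0))).card : ℝ) := by
      exact_mod_cast hle
    refine hle'.trans ?_
    rw [Nat.card_Ioc]
    refine (diff_le x h _ hx hc).trans ?_
    rw [hR]
    refine add_le_add_left ?_ 1
    have hxm : (x : ℝ) ≤ 2 * D * m0 := by
      have : x ≤ 2 * D * m0 := hxb.trans (Nat.mul_le_mul_right _ hb2D)
      exact_mod_cast this
    push_cast
    rw [div_le_div_iff₀ (by positivity) (by positivity)]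
    calc (h : ℝ) * (d1 * x) ≤ h * (d1 * (2 * D * m0)) := by
          refine mul_le_mul_of_nonneg_left ?_ (Nat.cast_nonneg _)
          exact mul_le_mul_of_nonneg_left hxm h1'.le
      _ = 2 * D * h * (d1 * m0) := by ring
  have h3 := Finset.card_le_mul_card_image (f := Prod.snd) (FF x h D d1 d2) ⌊R⌋₊ hfib
  -- the image
  have himg : (((FF x h D d1 d2).image Prod.snd).card : ℝ) ≤ 2 * x / (D * d2) := by
    have : ((FF x h D d1 d2).image Prod.snd).card ≤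
        (Finset.Ioc 0 (2 * x / (D * d2))).card := by
      refine Finset.card_le_card_of_injOn (fun m => m / d2) ?_ ?_
      · intro m hm
        rw [Finset.mem_coe, Finset.mem_image] at hm
        obtain ⟨⟨b0, m0⟩, hb0, rfl⟩ := hm
        simp only [FF, Finset.mem_filter, Finset.mem_product, Finset.mem_Ioc,
          Finset.mem_range] at hb0
        obtain ⟨⟨⟨hbD, hb2D⟩, _⟩, _, ⟨m', rfl⟩, hxb, hxb2⟩ := hb0
        refine Finset.mem_coe.2 (Finset.mem_Ioc.2 ?_)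
        simp only
        rw [Nat.mul_div_cancel_left _ h2]
        constructor
        · rcases Nat.eq_zero_or_pos m' with rfl | h
          · simp at hxb; omega
          · exact h
        · rw [Nat.le_div_iff_mul_le (Nat.mul_pos hD h2)]
          calc m' * (D * d2) = D * (d2 * m') := by ring
            _ ≤ b0 * (d2 * m') := Nat.mul_le_mul_right _ hbD.le
            _ ≤ 2 * x := by omega
      · intro m hm m2 hm2 hmm
        rw [Finset.mem_coe, Finset.mem_image] at hm hm2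
        obtain ⟨⟨b0, m0⟩, hb0, rfl⟩ := hm
        obtain ⟨⟨b1, m1⟩, hb1, rfl⟩ := hm2
        simp only [FF, Finset.mem_filter, Finset.mem_product, Finset.mem_Ioc,
          Finset.mem_range] at hb0 hb1
        obtain ⟨_, _, ⟨m', rfl⟩, _⟩ := hb0
        obtain ⟨_, _, ⟨m'', rfl⟩, _⟩ := hb1
        simp only at hmm ⊢
        rw [Nat.mul_div_cancel_left _ h2, Nat.mul_div_cancel_left _ h2] at hmm
        rw [hmm]
    rw [Nat.card_Ioc, Nat.sub_zero] at this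
    have e1 : (((FF x h D d1 d2).image Prod.snd).card : ℝ) ≤ ((2 * x / (D * d2) : ℕ) : ℝ) := by
      exact_mod_cast this
    have e2 : ((2 * x / (D * d2) : ℕ) : ℝ) ≤ ((2 * x : ℕ) : ℝ) / ((D * d2 : ℕ) : ℝ) :=
      Nat.cast_div_le
    push_cast at e2
    linarith
  have h4 : ((FF x h D d1 d2).card : ℝ) ≤ (⌊R⌋₊ : ℝ) *
      (((FF x h D d1 d2).image Prod.snd).card : ℝ) := by exact_mod_cast h3
  calc ((FF x h D d1 d2).card : ℝ) ≤ _ := h4
    _ ≤ R * (2 * x / (D * d2)) :=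
        mul_le_mul (Nat.floor_le hR0) himg (Nat.cast_nonneg _) hR0
    _ = 4 * h / (d1 * d2) + 2 * x / (D * d2) := by
        rw [hR]; field_simp; ring

/-- harmonic sums -/
theorem harm_up (B B' : ℕ) (hB : 1 ≤ B) (hBB : B ≤ B') :
    ∑ b ∈ Finset.Ioc B B', (1 : ℝ) / b ≤ Real.log B' - Real.log B := by
  induction B', hBB using Nat.le_induction with
  | base => simp
  | succ n hn ih =>
    rw [Finset.sum_Ioc_succ_top hn]
    have hn0 : (0 : ℝ) < n := by exact_mod_cast (by omega : 0 < n)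
    have h1 : (1 : ℝ) / ((n + 1 : ℕ) : ℝ) ≤ Real.log ((n + 1 : ℕ) : ℝ) - Real.log n := by
      have h2 := Real.one_sub_inv_le_log_of_pos (x := ((n + 1 : ℕ) : ℝ) / n) (by positivity)
      rw [Real.log_div (by positivity) hn0.ne'] at h2
      refine le_trans (le_of_eq ?_) h2
      push_cast
      field_simp
      ring
    linarith

theorem harm_lo (B B' : ℕ) (hBB : B ≤ B') :
    Real.log ((B' + 1 : ℕ) : ℝ) - Real.log ((B + 1 : ℕ) : ℝ) ≤
      ∑ b ∈ Finset.Ioc B B', (1 : ℝ) / b := by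
  induction B', hBB using Nat.le_induction with
  | base => simp
  | succ n hn ih =>
    rw [Finset.sum_Ioc_succ_top hn]
    have hn0 : (0 : ℝ) < ((n + 1 : ℕ) : ℝ) := by positivity
    have h1 : Real.log ((n + 1 + 1 : ℕ) : ℝ) - Real.log ((n + 1 : ℕ) : ℝ) ≤
        (1 : ℝ) / ((n + 1 : ℕ) : ℝ) := by
      have h2 := Real.log_le_sub_one_of_pos (x := ((n + 1 + 1 : ℕ) : ℝ) / ((n + 1 : ℕ) : ℝ))
        (by positivity)
      rw [Real.log_div (by positivity) hn0.ne'] at h2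
      refine h2.trans (le_of_eq ?_)
      push_cast
      field_simp
      ring
    linarith

theorem harm (D d : ℕ) (hd : 0 < d) (hB : 1 ≤ D / d) :
    |∑ b ∈ Finset.Ioc (D / d) (2 * D / d), (1 : ℝ) / b - Real.log 2| ≤
      1 / ((D / d : ℕ) : ℝ) := by
  set B := D / d with hBdef
  set B' := 2 * D / d with hB'def
  have hB0 : (0 : ℝ) < B := by exact_mod_cast hB
  have h1 : 2 * B ≤ B' := by
    rw [hB'def, Nat.le_div_iff_mul_le hd]
    have := Nat.div_mul_le_self D d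
    rw [← hBdef] at this
    nlinarith
  have h2 : B' ≤ 2 * B + 1 := by
    have h3 : D < (B + 1) * d := by
      rw [← Nat.div_lt_iff_lt_mul hd]
      omega
    have : B' < 2 * (B + 1) := by
      rw [hB'def, Nat.div_lt_iff_lt_mul hd]
      nlinarith
    omega
  have hBB : B ≤ B' := by omega
  have hB'0 : (0 : ℝ) < B' := by exact_mod_cast (by omega : 0 < B')
  have u := harm_up B B' hB hBB
  have l := harm_lo B B' hBB
  have c1 : Real.log B' ≤ Real.log 2 + Real.log B + 1 / (2 * B) := by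
    have e1 : (B' : ℝ) ≤ 2 * B * (1 + 1 / (2 * B)) := by
      have : (B' : ℝ) ≤ 2 * B + 1 := by exact_mod_cast h2
      refine this.trans (le_of_eq ?_)
      field_simp
    have e2 : Real.log (B' : ℝ) ≤ Real.log (2 * B * (1 + 1 / (2 * B))) :=
      Real.log_le_log hB'0 e1
    rw [Real.log_mul (by positivity) (by positivity), Real.log_mul (by norm_num) hB0.ne'] at e2
    have e3 := Real.log_le_sub_one_of_pos (x := 1 + 1 / (2 * (B : ℝ))) (by positivity)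
    linarith
  have c2 : Real.log 2 + Real.log B ≤ Real.log ((B' + 1 : ℕ) : ℝ) := by
    rw [← Real.log_mul (by norm_num) hB0.ne']
    refine Real.log_le_log (by positivity) ?_
    have : (2 * B : ℝ) ≤ B' := by exact_mod_cast h1
    push_cast
    linarith
  have c3 : Real.log ((B + 1 : ℕ) : ℝ) ≤ Real.log B + 1 / B := by
    have e3 := Real.log_le_sub_one_of_pos (x := ((B + 1 : ℕ) : ℝ) / B) (by positivity)
    rw [Real.log_div (by positivity) hB0.ne'] at e3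
    have e4 : ((B + 1 : ℕ) : ℝ) / B - 1 = 1 / B := by
      push_cast; field_simp; ring
    linarith
  have c4 : (1 : ℝ) / (2 * B) ≤ 1 / B := by
    refine div_le_div_of_nonneg_left zero_le_one hB0 (by linarith)
  rw [abs_le]
  constructor <;> linarith

/-- case (iii), exact bound -/
theorem case_iii (C : ℝ) (hC : 0 < C)
    (hP : ∀ (B B' : ℕ) (α D : ℝ), 1 ≤ B → B ≤ B' → B' ≤ 3 * B → 0 < α → 0 < D → D ≤ 1 →
      |∑ b ∈ Finset.Ioc B B', psi1 (α / b)| ≤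
        C * (B * D + Real.sqrt (α / (B * D)) + Real.sqrt ((B : ℝ) ^ 3 / α)))
    (x h D d1 d2 : ℕ) (hx : 2 ≤ x) (h1 : 0 < d1) (h2 : 0 < d2) (hB : 1 ≤ D / d1)
    (δ M : ℝ) (hδ : 0 < δ) (hδ1 : δ ≤ 1)
    (hM : ∀ y : ℕ, (y = x + h - 1 ∨ y = x - 1) →
      ((D / d1 : ℕ) : ℝ) * δ + Real.sqrt (((y : ℝ) / (d1 * d2 : ℕ)) / (((D / d1 : ℕ) : ℝ) * δ)) +
        Real.sqrt ((((D / d1 : ℕ) : ℝ)) ^ 3 / ((y : ℝ) / (d1 * d2 : ℕ))) ≤ M) :
    |((FF x h D d1 d2).card : ℝ) - h * Real.log 2 / (d1 * d2)| ≤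
      h / ((D / d1 : ℕ) : ℝ) + 2 * C * M := by
  have h1' : (0 : ℝ) < d1 := by exact_mod_cast h1
  have h2' : (0 : ℝ) < d2 := by exact_mod_cast h2
  have hc : 0 < d1 * d2 := Nat.mul_pos h1 h2
  have hc1 : (1 : ℝ) ≤ ((d1 * d2 : ℕ) : ℝ) := by exact_mod_cast hc
  have hB0 : (0 : ℝ) < ((D / d1 : ℕ) : ℝ) := by exact_mod_cast hB
  have hBB : D / d1 ≤ 2 * D / d1 := Nat.div_le_div_right (by omega)
  have hB3 : 2 * D / d1 ≤ 3 * (D / d1) := by
    have h3 : D < (D / d1 + 1) * d1 := by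
      rw [← Nat.div_lt_iff_lt_mul h1]
      omega
    have : 2 * D / d1 < 2 * (D / d1 + 1) := by
      rw [Nat.div_lt_iff_lt_mul h1]
      nlinarith
    omega
  have hcard : ((FF x h D d1 d2).card : ℝ) =
      h / (d1 * d2 : ℕ) * ∑ b ∈ Finset.Ioc (D / d1) (2 * D / d1), (1 : ℝ) / b -
        ∑ b ∈ Finset.Ioc (D / d1) (2 * D / d1),
          psi1 ((((x + h - 1 : ℕ) : ℝ) / (d1 * d2 : ℕ)) / b) +
        ∑ b ∈ Finset.Ioc (D / d1) (2 * D / d1),
          psi1 ((((x - 1 : ℕ) : ℝ) / (d1 * d2 : ℕ)) / b) := by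
    rw [card_FF x h D d1 d2 (by omega) h1 h2, Nat.cast_sum, Finset.mul_sum,
      ← Finset.sum_sub_distrib, ← Finset.sum_add_distrib]
    refine Finset.sum_congr rfl fun b hb => ?_
    have hb0 : 0 < b := by
      have := (Finset.mem_Ioc.1 hb).1
      omega
    rw [diff_eq x h (d1 * d2) b (by omega) hc hb0]
    have : (h : ℝ) / (((d1 * d2 : ℕ) : ℝ) * b) = h / ((d1 * d2 : ℕ) : ℝ) * (1 / b) := by
      rw [div_mul_div_comm, mul_one]
    rw [this]
  have p1 := hP (D / d1) (2 * D / d1) (((x + h - 1 : ℕ) : ℝ) / (d1 * d2 : ℕ)) δ hB hBB hB3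
    (by
      have : (0 : ℝ) < ((x + h - 1 : ℕ) : ℝ) := by exact_mod_cast (by omega : 0 < x + h - 1)
      positivity) hδ hδ1
  have p2 := hP (D / d1) (2 * D / d1) (((x - 1 : ℕ) : ℝ) / (d1 * d2 : ℕ)) δ hB hBB hB3
    (by
      have : (0 : ℝ) < ((x - 1 : ℕ) : ℝ) := by exact_mod_cast (by omega : 0 < x - 1)
      positivity) hδ hδ1
  have m1 := mul_le_mul_of_nonneg_left (hM (x + h - 1) (Or.inl rfl)) hC.le
  have m2 := mul_le_mul_of_nonneg_left (hM (x - 1) (Or.inr rfl)) hC.le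
  have q1 := abs_le.1 (p1.trans m1)
  have q2 := abs_le.1 (p2.trans m2)
  have hh := harm D d1 h1 hB
  have e0 : (h : ℝ) * Real.log 2 / (d1 * d2) = h / ((d1 * d2 : ℕ) : ℝ) * Real.log 2 := by
    push_cast; ring
  have e1 : |(h : ℝ) / ((d1 * d2 : ℕ) : ℝ) * (∑ b ∈ Finset.Ioc (D / d1) (2 * D / d1), (1 : ℝ) / b -
      Real.log 2)| ≤ h / ((D / d1 : ℕ) : ℝ) := by
    rw [abs_mul, abs_of_nonneg (by positivity)]
    calc (h : ℝ) / ((d1 * d2 : ℕ) : ℝ) * |∑ b ∈ Finset.Ioc (D / d1) (2 * D / d1), (1 : ℝ) / b -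
        Real.log 2| ≤ h / 1 * (1 / ((D / d1 : ℕ) : ℝ)) := by
          refine mul_le_mul ?_ hh (abs_nonneg _) (by positivity)
          exact div_le_div_of_nonneg_left (Nat.cast_nonneg _) one_pos hc1
      _ = h / ((D / d1 : ℕ) : ℝ) := by ring
  have e2 := abs_le.1 e1
  rw [hcard, e0, abs_le]
  constructor <;> linarith

theorem lattice (hps : PsiSum) : Lattice := by
  obtain ⟨C, hC, hP⟩ := hps
  -- large x
  have ev1 : ∀ᶠ x : ℕ in atTop, (8 : ℝ) ≤ (x : ℝ) ^ (0.01 : ℝ) :=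
    ((tendsto_rpow_atTop (by norm_num : (0 : ℝ) < 0.01)).comp
      tendsto_natCast_atTop_atTop).eventually_ge_atTop 8
  have ev2 : ∀ᶠ x : ℕ in atTop, (1 + 10 * C : ℝ) ≤ (x : ℝ) ^ (0.06 : ℝ) :=
    ((tendsto_rpow_atTop (by norm_num : (0 : ℝ) < 0.06)).comp
      tendsto_natCast_atTop_atTop).eventually_ge_atTop _
  obtain ⟨X0, hX0⟩ := ((eventually_ge_atTop 2).and (ev1.and ev2)).exists_forall_of_atTop
  refine ⟨X0, ?_⟩
  intro x h D d1 d2 hxX hh hD1 hD2 hd1 hd2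
  obtain ⟨hx2, hx8, hxC⟩ := hX0 x hxX
  have hx1' : (1 : ℝ) ≤ x := by exact_mod_cast (by omega : 1 ≤ x)
  have hx0 : (0 : ℝ) < x := by linarith
  have hx2' : (2 : ℝ) ≤ x := by exact_mod_cast hx2
  have radd : ∀ a b : ℝ, (x : ℝ) ^ (a + b) = (x : ℝ) ^ a * (x : ℝ) ^ b := fun a b =>
    Real.rpow_add hx0 a b
  have rmono : ∀ a b : ℝ, a ≤ b → (x : ℝ) ^ a ≤ (x : ℝ) ^ b := fun a b hab =>
    Real.rpow_le_rpow_of_exponent_le hx1' hab
  have rpos : ∀ a : ℝ, 0 < (x : ℝ) ^ a := fun a => Real.rpow_pos_of_pos hx0 a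
  have h1' : (0 : ℝ) < d1 := by exact_mod_cast hd1
  have h2' : (0 : ℝ) < d2 := by exact_mod_cast hd2
  have h1'' : (1 : ℝ) ≤ d1 := by exact_mod_cast hd1
  have h2'' : (1 : ℝ) ≤ d2 := by exact_mod_cast hd2
  have hD0' : (0 : ℝ) < D := (rpos _).trans_le hD1
  have hD0 : 0 < D := by exact_mod_cast hD0'
  have hhx : h ≤ x := by
    have : (h : ℝ) ≤ x := by
      refine hh.trans ?_
      calc (x : ℝ) ^ (1 / 2 : ℝ) ≤ (x : ℝ) ^ (1 : ℝ) := rmono _ _ (by norm_num)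
        _ = x := Real.rpow_one _
    exact_mod_cast this
  have hlog2 : Real.log 2 ≤ 1 := by
    have := Real.log_two_lt_d9
    linarith
  have hlog20 : 0 ≤ Real.log 2 := Real.log_nonneg (by norm_num)
  have hcast : (((((Finset.Ioc D (2 * D)) ×ˢ (Finset.range (x + h))).filter (fun y : ℕ × ℕ =>
        d1 ∣ y.1 ∧ d2 ∣ y.2 ∧ x ≤ y.1 * y.2 ∧ y.1 * y.2 < x + h)).card : ℕ) : ℝ) =
      ((FF x h D d1 d2).card : ℝ) := rfl
  rw [hcast]
  have e48 : 8 * (x : ℝ) ^ (0.47 : ℝ) ≤ (x : ℝ) ^ (0.48 : ℝ) := by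
    have : (0.48 : ℝ) = 0.47 + 0.01 := by norm_num
    rw [this, radd]
    have := mul_le_mul_of_nonneg_left hx8 (rpos 0.47).le
    linarith
  have hcnn : (0 : ℝ) ≤ ((FF x h D d1 d2).card : ℝ) := Nat.cast_nonneg _
  have hmain0 : 0 ≤ (h : ℝ) * Real.log 2 / (d1 * d2) := by positivity
  -- bound of h/(d1 d2) when one of them is large
  have hsmall : ∀ d e : ℝ, (x : ℝ) ^ (0.05 : ℝ) ≤ d → 1 ≤ e → (h : ℝ) / (d * e) ≤
      (x : ℝ) ^ (0.47 : ℝ) := by
    intro d e hd he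
    have hd0 : 0 < d := (rpos _).trans_le hd
    rw [div_le_iff₀ (by positivity)]
    have e1 : (x : ℝ) ^ (1 / 2 : ℝ) ≤ (x : ℝ) ^ (0.47 : ℝ) * (x : ℝ) ^ (0.05 : ℝ) := by
      rw [← radd]; exact rmono _ _ (by norm_num)
    calc (h : ℝ) ≤ (x : ℝ) ^ (1 / 2 : ℝ) := hh
      _ ≤ (x : ℝ) ^ (0.47 : ℝ) * (x : ℝ) ^ (0.05 : ℝ) := e1
      _ ≤ (x : ℝ) ^ (0.47 : ℝ) * (d * e) := by
          refine mul_le_mul_of_nonneg_left ?_ (rpos _).le
          nlinarith [rpos (0.05 : ℝ)]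
  by_cases hc1 : (x : ℝ) ^ (0.05 : ℝ) ≤ d1
  · -- case (i)
    have c1 := case_i x h D d1 d2 (by omega) hd1 hd2 hD0
    have s1 := hsmall d1 d2 hc1 h2''
    have s2 : 2 * (D : ℝ) / d1 ≤ 2 * (x : ℝ) ^ (0.47 : ℝ) := by
      rw [div_le_iff₀ h1']
      have : (D : ℝ) ≤ (x : ℝ) ^ (0.47 : ℝ) * d1 := by
        calc (D : ℝ) ≤ (x : ℝ) ^ (0.52 : ℝ) := hD2
          _ = (x : ℝ) ^ (0.47 : ℝ) * (x : ℝ) ^ (0.05 : ℝ) := by rw [← radd]; norm_num
          _ ≤ (x : ℝ) ^ (0.47 : ℝ) * d1 := mul_le_mul_of_nonneg_left hc1 (rpos _).le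
      linarith
    have s3 : 2 * (h : ℝ) / (d1 * d2) = 2 * (h / (d1 * d2)) := by ring
    have s4 : (h : ℝ) * Real.log 2 / (d1 * d2) ≤ h / (d1 * d2) := by
      have : (h : ℝ) * Real.log 2 / (d1 * d2) = h / (d1 * d2) * Real.log 2 := by ring
      rw [this]
      have h0 : 0 ≤ (h : ℝ) / (d1 * d2) := by positivity
      nlinarith
    have := rpos (0.47 : ℝ)
    rw [abs_le]
    constructor <;> linarith
  by_cases hc2 : (x : ℝ) ^ (0.05 : ℝ) ≤ d2
  · -- case (ii)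
    have c1 := case_ii x h D d1 d2 (by omega) hhx hd1 hd2 hD0
    have s1 := hsmall d2 d1 hc2 h1''
    rw [mul_comm (d2 : ℝ) d1] at s1
    have s2 : 2 * (x : ℝ) / (D * d2) ≤ 2 * (x : ℝ) ^ (0.47 : ℝ) := by
      rw [div_le_iff₀ (by positivity)]
      have : (x : ℝ) ≤ (x : ℝ) ^ (0.47 : ℝ) * (D * d2) := by
        calc (x : ℝ) = (x : ℝ) ^ (0.47 : ℝ) * ((x : ℝ) ^ (0.48 : ℝ) * (x : ℝ) ^ (0.05 : ℝ)) := by
              rw [← radd, ← radd]; norm_num
          _ ≤ (x : ℝ) ^ (0.47 : ℝ) * (D * d2) := by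
              refine mul_le_mul_of_nonneg_left ?_ (rpos _).le
              exact mul_le_mul hD1 hc2 (rpos _).le hD0'.le
      linarith
    have s3 : 4 * (h : ℝ) / (d1 * d2) = 4 * (h / (d1 * d2)) := by ring
    have s4 : (h : ℝ) * Real.log 2 / (d1 * d2) ≤ h / (d1 * d2) := by
      have : (h : ℝ) * Real.log 2 / (d1 * d2) = h / (d1 * d2) * Real.log 2 := by ring
      rw [this]
      have h0 : 0 ≤ (h : ℝ) / (d1 * d2) := by positivity
      nlinarith
    have := rpos (0.47 : ℝ)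
    rw [abs_le]
    constructor <;> linarith
  -- case (iii)
  push Not at hc1 hc2
  set B : ℝ := ((D / d1 : ℕ) : ℝ) with hBdef
  have hBup : B ≤ (x : ℝ) ^ (0.52 : ℝ) := by
    have : B ≤ D := by
      rw [hBdef]; exact_mod_cast Nat.div_le_self _ _
    exact this.trans hD2
  have hBlo : (x : ℝ) ^ (0.42 : ℝ) ≤ B := by
    have e1 : (D : ℝ) / d1 < B + 1 := by
      have := Nat.lt_floor_add_one ((D : ℝ) / d1)
      rwa [Nat.floor_div_eq_div] at this
    have e2 : (x : ℝ) ^ (0.43 : ℝ) ≤ D / d1 := by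
      rw [le_div_iff₀ h1']
      calc (x : ℝ) ^ (0.43 : ℝ) * d1 ≤ (x : ℝ) ^ (0.43 : ℝ) * (x : ℝ) ^ (0.05 : ℝ) :=
            mul_le_mul_of_nonneg_left hc1.le (rpos _).le
        _ = (x : ℝ) ^ (0.48 : ℝ) := by rw [← radd]; norm_num
        _ ≤ D := hD1
    have e3 : 8 * (x : ℝ) ^ (0.42 : ℝ) ≤ (x : ℝ) ^ (0.43 : ℝ) := by
      have : (0.43 : ℝ) = 0.42 + 0.01 := by norm_num
      rw [this, radd]
      have := mul_le_mul_of_nonneg_left hx8 (rpos 0.42).le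
      linarith
    have e4 : 1 ≤ (x : ℝ) ^ (0.42 : ℝ) := Real.one_le_rpow hx1' (by norm_num)
    linarith
  have hB1' : 1 ≤ B := (Real.one_le_rpow hx1' (by norm_num)).trans hBlo
  have hB1 : 1 ≤ D / d1 := by
    rw [hBdef] at hB1'
    exact_mod_cast hB1'
  have hB0 : 0 < B := by linarith
  have hδ : (0 : ℝ) < (x : ℝ) ^ (-0.1 : ℝ) := rpos _
  have hδ1 : (x : ℝ) ^ (-0.1 : ℝ) ≤ 1 := Real.rpow_le_one_of_one_le_of_nonpos hx1' (by norm_num)
  have hsq2 : Real.sqrt 2 ≤ 2 := by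
    rw [Real.sqrt_le_left (by norm_num)]; norm_num
  have main := case_iii C hC hP x h D d1 d2 hx2 hd1 hd2 hB1 ((x : ℝ) ^ (-0.1 : ℝ))
    (5 * (x : ℝ) ^ (0.42 : ℝ)) hδ hδ1 (by
      intro y hy
      have hyup : (y : ℝ) ≤ 2 * x := by
        have : y ≤ 2 * x := by rcases hy with rfl | rfl <;> omega
        exact_mod_cast this
      have hylo : (x : ℝ) / 2 ≤ y := by
        have : x ≤ 2 * y := by rcases hy with rfl | rfl <;> omega
        have : (x : ℝ) ≤ 2 * y := by exact_mod_cast this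
        linarith
      have hy0 : (0 : ℝ) < y := by linarith
      have hcc : (0 : ℝ) < ((d1 * d2 : ℕ) : ℝ) := by push_cast; positivity
      have hcc1 : (1 : ℝ) ≤ ((d1 * d2 : ℕ) : ℝ) := by
        push_cast; nlinarith
      have hccu : ((d1 * d2 : ℕ) : ℝ) ≤ (x : ℝ) ^ (0.1 : ℝ) := by
        push_cast
        calc (d1 : ℝ) * d2 ≤ (x : ℝ) ^ (0.05 : ℝ) * (x : ℝ) ^ (0.05 : ℝ) :=
              mul_le_mul hc1.le hc2.le h2'.le (rpos _).le
          _ = (x : ℝ) ^ (0.1 : ℝ) := by rw [← radd]; norm_num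
      rw [← hBdef]
      have t1 : B * (x : ℝ) ^ (-0.1 : ℝ) ≤ (x : ℝ) ^ (0.42 : ℝ) := by
        calc B * (x : ℝ) ^ (-0.1 : ℝ) ≤ (x : ℝ) ^ (0.52 : ℝ) * (x : ℝ) ^ (-0.1 : ℝ) :=
              mul_le_mul_of_nonneg_right hBup hδ.le
          _ = (x : ℝ) ^ (0.42 : ℝ) := by rw [← radd]; norm_num
      have t2 : Real.sqrt (((y : ℝ) / (d1 * d2 : ℕ)) / (B * (x : ℝ) ^ (-0.1 : ℝ))) ≤
          2 * (x : ℝ) ^ (0.42 : ℝ) := by
        have e1 : ((y : ℝ) / (d1 * d2 : ℕ)) / (B * (x : ℝ) ^ (-0.1 : ℝ)) ≤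
            2 * ((x : ℝ) ^ (0.34 : ℝ)) ^ 2 := by
          rw [div_le_iff₀ (by positivity)]
          have f1 : (y : ℝ) / (d1 * d2 : ℕ) ≤ 2 * x := (div_le_self hy0.le hcc1).trans hyup
          have f2 : ((x : ℝ) ^ (0.34 : ℝ)) ^ 2 = (x : ℝ) ^ (0.68 : ℝ) := by
            rw [sq, ← radd]; norm_num
          have f3 : (x : ℝ) ^ (0.32 : ℝ) ≤ B * (x : ℝ) ^ (-0.1 : ℝ) := by
            calc (x : ℝ) ^ (0.32 : ℝ) = (x : ℝ) ^ (0.42 : ℝ) * (x : ℝ) ^ (-0.1 : ℝ) := by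
                  rw [← radd]; norm_num
              _ ≤ _ := mul_le_mul_of_nonneg_right hBlo hδ.le
          rw [f2]
          calc (y : ℝ) / (d1 * d2 : ℕ) ≤ 2 * x := f1
            _ = 2 * (x : ℝ) ^ (0.68 : ℝ) * (x : ℝ) ^ (0.32 : ℝ) := by
                rw [mul_assoc, ← radd]; norm_num
            _ ≤ 2 * (x : ℝ) ^ (0.68 : ℝ) * (B * (x : ℝ) ^ (-0.1 : ℝ)) :=
                mul_le_mul_of_nonneg_left f3 (by positivity)
        calc Real.sqrt (((y : ℝ) / (d1 * d2 : ℕ)) / (B * (x : ℝ) ^ (-0.1 : ℝ)))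
            ≤ Real.sqrt (2 * ((x : ℝ) ^ (0.34 : ℝ)) ^ 2) := Real.sqrt_le_sqrt e1
          _ = Real.sqrt 2 * (x : ℝ) ^ (0.34 : ℝ) := by
              rw [Real.sqrt_mul (by norm_num), Real.sqrt_sq (rpos _).le]
          _ ≤ 2 * (x : ℝ) ^ (0.42 : ℝ) :=
              mul_le_mul hsq2 (rmono _ _ (by norm_num)) (rpos _).le (by norm_num)
      have t3 : Real.sqrt (B ^ 3 / ((y : ℝ) / (d1 * d2 : ℕ))) ≤ 2 * (x : ℝ) ^ (0.42 : ℝ) := by
        have e1 : B ^ 3 / ((y : ℝ) / (d1 * d2 : ℕ)) ≤ 2 * ((x : ℝ) ^ (0.33 : ℝ)) ^ 2 := by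
          rw [div_le_iff₀ (by positivity)]
          have f2 : ((x : ℝ) ^ (0.33 : ℝ)) ^ 2 = (x : ℝ) ^ (0.66 : ℝ) := by
            rw [sq, ← radd]; norm_num
          have f3 : (x : ℝ) ^ (0.9 : ℝ) / 2 ≤ (y : ℝ) / (d1 * d2 : ℕ) := by
            rw [le_div_iff₀ hcc]
            calc (x : ℝ) ^ (0.9 : ℝ) / 2 * ((d1 * d2 : ℕ) : ℝ)
                ≤ (x : ℝ) ^ (0.9 : ℝ) / 2 * (x : ℝ) ^ (0.1 : ℝ) :=
                  mul_le_mul_of_nonneg_left hccu (by positivity)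
              _ = ((x : ℝ) ^ (0.9 : ℝ) * (x : ℝ) ^ (0.1 : ℝ)) / 2 := by ring
              _ = x / 2 := by rw [← radd]; norm_num
              _ ≤ y := hylo
          have f4 : B ^ 3 ≤ (x : ℝ) ^ (1.56 : ℝ) := by
            calc B ^ 3 ≤ ((x : ℝ) ^ (0.52 : ℝ)) ^ 3 := pow_le_pow_left₀ hB0.le hBup 3
              _ = (x : ℝ) ^ (1.56 : ℝ) := by
                  rw [pow_succ, sq, ← radd, ← radd]; norm_num
          rw [f2]
          calc B ^ 3 ≤ (x : ℝ) ^ (1.56 : ℝ) := f4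
            _ = 2 * (x : ℝ) ^ (0.66 : ℝ) * ((x : ℝ) ^ (0.9 : ℝ) / 2) := by
                have : (1.56 : ℝ) = 0.66 + 0.9 := by norm_num
                rw [this, radd]; ring
            _ ≤ _ := mul_le_mul_of_nonneg_left f3 (by positivity)
        calc Real.sqrt (B ^ 3 / ((y : ℝ) / (d1 * d2 : ℕ)))
            ≤ Real.sqrt (2 * ((x : ℝ) ^ (0.33 : ℝ)) ^ 2) := Real.sqrt_le_sqrt e1
          _ = Real.sqrt 2 * (x : ℝ) ^ (0.33 : ℝ) := by
              rw [Real.sqrt_mul (by norm_num), Real.sqrt_sq (rpos _).le]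
          _ ≤ 2 * (x : ℝ) ^ (0.42 : ℝ) :=
              mul_le_mul hsq2 (rmono _ _ (by norm_num)) (rpos _).le (by norm_num)
      linarith)
  refine main.trans ?_
  rw [← hBdef]
  have u1 : (h : ℝ) / B ≤ (x : ℝ) ^ (0.42 : ℝ) := by
    rw [div_le_iff₀ hB0]
    calc (h : ℝ) ≤ (x : ℝ) ^ (1 / 2 : ℝ) := hh
      _ ≤ (x : ℝ) ^ (0.42 : ℝ) * (x : ℝ) ^ (0.42 : ℝ) := by
          rw [← radd]; exact rmono _ _ (by norm_num)
      _ ≤ (x : ℝ) ^ (0.42 : ℝ) * B := mul_le_mul_of_nonneg_left hBlo (rpos _).le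
  calc (h : ℝ) / B + 2 * C * (5 * (x : ℝ) ^ (0.42 : ℝ))
      ≤ (x : ℝ) ^ (0.42 : ℝ) * (1 + 10 * C) := by linarith
    _ ≤ (x : ℝ) ^ (0.42 : ℝ) * (x : ℝ) ^ (0.06 : ℝ) :=
        mul_le_mul_of_nonneg_left hxC (rpos _).le
    _ = (x : ℝ) ^ (0.48 : ℝ) := by rw [← radd]; norm_num

end Pool.Agent.Helper96.QRH
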