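import Pool.Agent.Helper10.QRH.StB

/-! Module QRH-B2: Fourier series of the sawtooth function and one-sided approximations. -/

set_option autoImplicit false
open Filter Topology

namespace Pool.Agent.Helper96.QRH

open Pool.Agent.Helper10.QRH

/-- the second Bernoulli function divided by two -/
noncomputable def Bf (t : ℝ) : ℝ := (Int.fract t ^ 2 - Int.fract t + 1 / 6) / 2

theorem fract_sub_cases (t D : ℝ) (hD : 0 < D) (hD1 : D ≤ 1) :
    (Int.fract (t - D) = Int.fract t - D) ∨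
      (Int.fract (t - D) = Int.fract t - D + 1 ∧ Int.fract t ≤ D) := by
  by_cases h : D ≤ Int.fract t
  · left
    rw [Int.fract_eq_iff]
    refine ⟨by linarith, by linarith [Int.fract_lt_one t], ⌊t⌋, ?_⟩
    rw [Int.fract]; ring
  · right
    push Not at h
    refine ⟨?_, h.le⟩
    rw [Int.fract_eq_iff]
    refine ⟨by linarith [Int.fract_nonneg t], by linarith, ⌊t⌋ - 1, ?_⟩
    rw [Int.fract]; push_cast; ring

theorem psi1_up (t D : ℝ) (hD : 0 < D) (hD1 : D ≤ 1) :
    psi1 t ≤ (Bf t - Bf (t - D)) / D + D / 2 := by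
  unfold psi1 Bf
  have hx0 := Int.fract_nonneg t
  rcases fract_sub_cases t D hD hD1 with h | ⟨h, hx⟩
  · rw [h]
    refine le_of_eq ?_
    field_simp
    ring
  · rw [h]
    have e : ((Int.fract t ^ 2 - Int.fract t + 1 / 6) / 2 -
        ((Int.fract t - D + 1) ^ 2 - (Int.fract t - D + 1) + 1 / 6) / 2) / D + D / 2 =
        Int.fract t - Int.fract t / D + 1 / 2 := by
      field_simp
      ring
    rw [e]
    have : Int.fract t / D ≤ 1 := (div_le_one hD).2 hx
    linarith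

theorem psi1_lo (t D : ℝ) (hD : 0 < D) (hD1 : D ≤ 1) :
    (Bf (t + D) - Bf t) / D - D / 2 ≤ psi1 t := by
  unfold psi1 Bf
  rcases fract_sub_cases (t + D) D hD hD1 with h | ⟨h, hx⟩
  · rw [add_sub_cancel_right] at h
    have h' : Int.fract (t + D) = Int.fract t + D := by linarith
    rw [h']
    refine le_of_eq ?_
    field_simp
    ring
  · rw [add_sub_cancel_right] at h
    have h' : Int.fract (t + D) = Int.fract t + D - 1 := by linarith
    have hge : 1 ≤ Int.fract t + D := by linarith [Int.fract_nonneg (t + D)]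
    rw [h']
    have e : (((Int.fract t + D - 1) ^ 2 - (Int.fract t + D - 1) + 1 / 6) / 2 -
        (Int.fract t ^ 2 - Int.fract t + 1 / 6) / 2) / D - D / 2 =
        Int.fract t - 3 / 2 + (1 - Int.fract t) / D := by
      field_simp
      ring
    rw [e]
    have : (1 - Int.fract t) / D ≤ 1 := (div_le_one hD).2 (by linarith)
    linarith

theorem hasSum_Bf (t : ℝ) :
    HasSum (fun l : ℕ => 1 / (l : ℝ) ^ 2 * Real.cos (2 * Real.pi * l * t))
      (2 * Real.pi ^ 2 * Bf t) := by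
  have hx : Int.fract t ∈ Set.Icc (0 : ℝ) 1 := ⟨Int.fract_nonneg t, (Int.fract_lt_one t).le⟩
  have h := hasSum_one_div_nat_pow_mul_cos (k := 1) one_ne_zero hx
  have e0 : (Polynomial.map (algebraMap ℚ ℝ) (Polynomial.bernoulli (2 * 1))).eval (Int.fract t) =
      Int.fract t ^ 2 - Int.fract t + 6⁻¹ := bernoulliFun_two (Int.fract t)
  have e1 : (-1 : ℝ) ^ (1 + 1) * (2 * Real.pi) ^ (2 * 1) / 2 / (Nat.factorial (2 * 1)) *
      (Polynomial.map (algebraMap ℚ ℝ) (Polynomial.bernoulli (2 * 1))).eval (Int.fract t) =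
      2 * Real.pi ^ 2 * Bf t := by
    rw [e0]
    unfold Bf
    norm_num [Nat.factorial]
    ring
  rw [e1] at h
  refine h.congr_fun ?_
  intro l
  have : 2 * Real.pi * l * Int.fract t = 2 * Real.pi * l * t - ((l * ⌊t⌋ : ℤ) : ℝ) *
      (2 * Real.pi) := by
    rw [Int.fract]; push_cast; ring
  rw [this, Real.cos_sub_int_mul_two_pi]

theorem norm_one_sub_ee (l : ℕ) (δ D : ℝ) (hD : 0 < D) (hδ : |δ| = D) :
    ‖1 - ee (l * δ)‖ ≤ 2 * Real.pi * min 1 ((l : ℝ) * D) := by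
  have h1 : ‖1 - ee (l * δ)‖ ≤ 2 := by
    refine (norm_sub_le _ _).trans ?_
    have : ‖ee (l * δ)‖ = 1 := by
      unfold ee
      rw [Complex.norm_exp]
      simp
    rw [this, norm_one]
    norm_num
  have h2 : ‖1 - ee (l * δ)‖ ≤ 2 * Real.pi * ((l : ℝ) * D) := by
    rw [norm_sub_rev]
    have := Real.norm_exp_I_mul_ofReal_sub_one_le (x := 2 * Real.pi * (l * δ))
    have e : Complex.exp (Complex.I * ((2 * Real.pi * (l * δ) : ℝ) : ℂ)) = ee (l * δ) := by
      unfold ee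
      congr 1
      push_cast
      ring
    rw [e] at this
    refine this.trans (le_of_eq ?_)
    rw [Real.norm_eq_abs, abs_mul, abs_mul (l : ℝ) δ, hδ,
      abs_of_pos (by positivity : (0 : ℝ) < 2 * Real.pi),
      abs_of_nonneg (Nat.cast_nonneg l : (0 : ℝ) ≤ l)]
  rcases le_total 1 ((l : ℝ) * D) with h | h
  · rw [min_eq_left h]
    have := Real.pi_gt_three
    linarith
  · rw [min_eq_right h]
    exact h2

/-- the key estimate for a shift -/
theorem shift_bound (S : Finset ℕ) (g : ℕ → ℝ) (δ D : ℝ) (hD : 0 < D) (hδ : |δ| = D)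
    (E : ℕ → ℝ) (hE : ∀ l : ℕ, 1 ≤ l → ‖∑ n ∈ S, ee (l * g n)‖ ≤ E l)
    (hs : Summable (fun l : ℕ => min 1 ((l : ℝ) * D) / (l : ℝ) ^ 2 * E l)) :
    |∑ n ∈ S, (Bf (g n) - Bf (g n + δ))| ≤
      ∑' l : ℕ, min 1 ((l : ℝ) * D) / (l : ℝ) ^ 2 * E l := by
  have h1 : HasSum (fun l : ℕ => ∑ n ∈ S, (1 / (l : ℝ) ^ 2 * Real.cos (2 * Real.pi * l * g n) -
      1 / (l : ℝ) ^ 2 * Real.cos (2 * Real.pi * l * (g n + δ))))
      (∑ n ∈ S, (2 * Real.pi ^ 2 * Bf (g n) - 2 * Real.pi ^ 2 * Bf (g n + δ))) :=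
    hasSum_sum fun n _ => (hasSum_Bf (g n)).sub (hasSum_Bf (g n + δ))
  have h2 : HasSum (fun l : ℕ => 2 * Real.pi * (min 1 ((l : ℝ) * D) / (l : ℝ) ^ 2 * E l))
      (2 * Real.pi * ∑' l : ℕ, min 1 ((l : ℝ) * D) / (l : ℝ) ^ 2 * E l) :=
    hs.hasSum.mul_left _
  have h3 := h1.norm_le_of_bounded h2 (by
    intro l
    rcases Nat.eq_zero_or_pos l with rfl | hl
    · simp
    have e1 : ∑ n ∈ S, (1 / (l : ℝ) ^ 2 * Real.cos (2 * Real.pi * l * g n) -
        1 / (l : ℝ) ^ 2 * Real.cos (2 * Real.pi * l * (g n + δ))) =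
        1 / (l : ℝ) ^ 2 * ((1 - ee (l * δ)) * ∑ n ∈ S, ee (l * g n)).re := by
      rw [Finset.mul_sum, Complex.re_sum, Finset.mul_sum]
      refine Finset.sum_congr rfl fun n _ => ?_
      have c1 : (ee (l * g n)).re = Real.cos (2 * Real.pi * l * g n) := by
        unfold ee
        rw [Complex.exp_re]
        simp
        congr 1
        ring
      have c2 : (ee (l * δ) * ee (l * g n)).re = Real.cos (2 * Real.pi * l * (g n + δ)) := by
        unfold ee
        rw [← Complex.exp_add, Complex.exp_re]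
        simp
        congr 1
        ring
      rw [sub_mul, one_mul, Complex.sub_re, c1, c2]
      ring
    rw [e1, norm_mul]
    have hl2 : (0 : ℝ) < (l : ℝ) ^ 2 := by positivity
    have e2 : ‖1 / (l : ℝ) ^ 2‖ = 1 / (l : ℝ) ^ 2 := by
      rw [Real.norm_eq_abs, abs_of_pos (by positivity)]
    have e3 : ‖((1 - ee (l * δ)) * ∑ n ∈ S, ee (l * g n)).re‖ ≤
        2 * Real.pi * min 1 ((l : ℝ) * D) * E l := by
      rw [Real.norm_eq_abs]
      refine (Complex.abs_re_le_norm _).trans ?_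
      rw [norm_mul]
      refine mul_le_mul (norm_one_sub_ee l δ D hD hδ) (hE l hl) (norm_nonneg _) ?_
      have : 0 ≤ min 1 ((l : ℝ) * D) := le_min zero_le_one (by positivity)
      have := Real.pi_pos
      positivity
    rw [e2]
    calc 1 / (l : ℝ) ^ 2 * ‖((1 - ee (l * δ)) * ∑ n ∈ S, ee (l * g n)).re‖
        ≤ 1 / (l : ℝ) ^ 2 * (2 * Real.pi * min 1 ((l : ℝ) * D) * E l) :=
          mul_le_mul_of_nonneg_left e3 (by positivity)
      _ = 2 * Real.pi * (min 1 ((l : ℝ) * D) / (l : ℝ) ^ 2 * E l) := by ring)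
  have h4 : ∑ n ∈ S, (2 * Real.pi ^ 2 * Bf (g n) - 2 * Real.pi ^ 2 * Bf (g n + δ)) =
      2 * Real.pi ^ 2 * ∑ n ∈ S, (Bf (g n) - Bf (g n + δ)) := by
    rw [Finset.mul_sum]
    refine Finset.sum_congr rfl fun n _ => by ring
  rw [h4, Real.norm_eq_abs, abs_mul, abs_of_pos (by positivity)] at h3
  set T := ∑' l : ℕ, min 1 ((l : ℝ) * D) / (l : ℝ) ^ 2 * E l with hT
  have hpi := Real.pi_gt_three
  have h5 : Real.pi * |∑ n ∈ S, (Bf (g n) - Bf (g n + δ))| ≤ T := by
    have : 2 * Real.pi * (Real.pi * |∑ n ∈ S, (Bf (g n) - Bf (g n + δ))|) ≤ 2 * Real.pi * T := by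
      calc 2 * Real.pi * (Real.pi * |∑ n ∈ S, (Bf (g n) - Bf (g n + δ))|) =
          2 * Real.pi ^ 2 * |∑ n ∈ S, (Bf (g n) - Bf (g n + δ))| := by ring
        _ ≤ _ := h3
    exact le_of_mul_le_mul_left this (by positivity)
  have h6 : |∑ n ∈ S, (Bf (g n) - Bf (g n + δ))| ≤
      Real.pi * |∑ n ∈ S, (Bf (g n) - Bf (g n + δ))| := by
    have h0 := abs_nonneg (∑ n ∈ S, (Bf (g n) - Bf (g n + δ)))
    nlinarith
  exact h6.trans h5

theorem psiApprox : PsiApprox := by
  refine ⟨1, one_pos, ?_⟩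
  intro S g D hD hD1 E hE hs
  set T := ∑' l : ℕ, min 1 ((l : ℝ) * D) / (l : ℝ) ^ 2 * E l with hT
  have b1 := shift_bound S g (-D) D hD (by rw [abs_neg, abs_of_pos hD]) E hE hs
  have b2 := shift_bound S g D D hD (abs_of_pos hD) E hE hs
  rw [← hT] at b1 b2
  have hc : (0 : ℝ) ≤ S.card := Nat.cast_nonneg _
  rw [abs_le]
  constructor
  · -- lower bound
    have h1 : ∑ n ∈ S, ((Bf (g n + D) - Bf (g n)) / D - D / 2) ≤ ∑ n ∈ S, psi1 (g n) :=
      Finset.sum_le_sum fun n _ => psi1_lo _ _ hD hD1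
    have h2 : ∑ n ∈ S, ((Bf (g n + D) - Bf (g n)) / D - D / 2) =
        -(∑ n ∈ S, (Bf (g n) - Bf (g n + D))) / D - S.card * (D / 2) := by
      rw [Finset.sum_sub_distrib, Finset.sum_const, nsmul_eq_mul, ← Finset.sum_div,
        ← Finset.sum_neg_distrib]
      congr 2
      refine Finset.sum_congr rfl fun n _ => by ring
    have h3 : -(∑ n ∈ S, (Bf (g n) - Bf (g n + D))) / D ≥ -T / D := by
      have := (abs_le.1 b2).2
      exact div_le_div_of_nonneg_right (by linarith) hD.le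
    have h4 : (S.card : ℝ) * (D / 2) ≤ S.card * D := mul_le_mul_of_nonneg_left (by linarith) hc
    have h5 : 1 / D * T = T / D := by ring
    have h6 : -T / D = -(T / D) := by ring
    rw [h5, one_mul]
    linarith
  · have h1 : ∑ n ∈ S, psi1 (g n) ≤ ∑ n ∈ S, ((Bf (g n) - Bf (g n - D)) / D + D / 2) :=
      Finset.sum_le_sum fun n _ => psi1_up _ _ hD hD1
    have h2 : ∑ n ∈ S, ((Bf (g n) - Bf (g n - D)) / D + D / 2) =
        (∑ n ∈ S, (Bf (g n) - Bf (g n + -D))) / D + S.card * (D / 2) := by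
      rw [Finset.sum_add_distrib, Finset.sum_const, nsmul_eq_mul, ← Finset.sum_div]
      rfl
    have h3 : (∑ n ∈ S, (Bf (g n) - Bf (g n + -D))) / D ≤ T / D :=
      div_le_div_of_nonneg_right (abs_le.1 b1).2 hD.le
    have h4 : (S.card : ℝ) * (D / 2) ≤ S.card * D := mul_le_mul_of_nonneg_left (by linarith) hc
    have h5 : 1 / D * T = T / D := by ring
    rw [h5, one_mul]
    linarith

end Pool.Agent.Helper96.QRH
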