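import Pool.Agent.Helper10.QRH.StB

/-! Module QRH-B3: the sum of `psi (α / b)`. -/

set_option autoImplicit false
open Filter Topology

namespace Pool.Agent.Helper96.QRH

open Pool.Agent.Helper10.QRH

/-- the summand -/
noncomputable def aa (D : ℝ) (l : ℕ) : ℝ := min 1 ((l : ℝ) * D) / (l : ℝ) ^ 2 * Real.sqrt l

theorem aa_nonneg (D : ℝ) (hD : 0 < D) (l : ℕ) : 0 ≤ aa D l := by
  unfold aa
  have : 0 ≤ min 1 ((l : ℝ) * D) := le_min zero_le_one (by positivity)
  positivity

/-- telescoping majorant -/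
theorem aa_step (D : ℝ) (hD : 0 < D) (l : ℕ) :
    aa D (l + 1) ≤ 8 * Real.sqrt D * (Real.sqrt ((l + 1 : ℕ) * D) / (1 + Real.sqrt ((l + 1 : ℕ) * D)) -
      Real.sqrt (l * D) / (1 + Real.sqrt (l * D))) := by
  unfold aa
  set p := Real.sqrt ((l + 1 : ℕ) * D) with hp
  set q := Real.sqrt ((l : ℝ) * D) with hq
  set r := Real.sqrt D with hr
  have hL : (0 : ℝ) < ((l + 1 : ℕ) : ℝ) := by exact_mod_cast Nat.succ_pos l
  have hp0 : 0 < p := Real.sqrt_pos.2 (by positivity)
  have hq0 : 0 ≤ q := Real.sqrt_nonneg _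
  have hr0 : 0 < r := Real.sqrt_pos.2 hD
  have hp2 : p ^ 2 = ((l + 1 : ℕ) : ℝ) * D := Real.sq_sqrt (by positivity)
  have hq2 : q ^ 2 = (l : ℝ) * D := Real.sq_sqrt (by positivity)
  have hr2 : r ^ 2 = D := Real.sq_sqrt hD.le
  have hqp : q ≤ p := by
    refine Real.sqrt_le_sqrt ?_
    push_cast
    nlinarith
  -- difference
  have hdiff : p / (1 + p) - q / (1 + q) = (p - q) / ((1 + p) * (1 + q)) := by
    field_simp
    ring
  have hpq : (p - q) * (p + q) = D := by
    have : (p - q) * (p + q) = p ^ 2 - q ^ 2 := by ring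
    rw [this, hp2, hq2]; push_cast; ring
  have h1 : D / (2 * p) ≤ p - q := by
    rw [div_le_iff₀ (by positivity)]
    nlinarith
  have h2 : D / (2 * p * (1 + p) ^ 2) ≤ p / (1 + p) - q / (1 + q) := by
    rw [hdiff, div_le_div_iff₀ (by positivity) (by positivity)]
    have e1 : D ≤ (p - q) * (2 * p) := (div_le_iff₀ (by positivity)).1 h1
    have e2 : (1 + p) * (1 + q) ≤ (1 + p) ^ 2 := by nlinarith
    calc D * ((1 + p) * (1 + q)) ≤ ((p - q) * (2 * p)) * (1 + p) ^ 2 :=
          mul_le_mul e1 e2 (by positivity) (by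
            have : 0 ≤ p - q := by linarith
            positivity)
      _ = (p - q) * (2 * p * (1 + p) ^ 2) := by ring
  -- sqrt of l+1
  have hs : Real.sqrt ((l + 1 : ℕ) : ℝ) * r = p := by
    rw [hr, hp, ← Real.sqrt_mul hL.le]
  have hs' : Real.sqrt ((l + 1 : ℕ) : ℝ) = p / r := by
    rw [eq_div_iff hr0.ne']; exact hs
  have hL' : ((l + 1 : ℕ) : ℝ) = p ^ 2 / D := by
    rw [eq_div_iff hD.ne']; exact hp2.symm
  have h3 : min 1 (p ^ 2) * (1 + p) ^ 2 ≤ 4 * p ^ 2 := by
    rcases le_total 1 p with h | h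
    · have : min 1 (p ^ 2) ≤ 1 := min_le_left _ _
      have h5 : min 1 (p ^ 2) * (1 + p) ^ 2 ≤ 1 * (1 + p) ^ 2 :=
        mul_le_mul_of_nonneg_right this (by positivity)
      nlinarith
    · have : min 1 (p ^ 2) ≤ p ^ 2 := min_le_right _ _
      have h5 : min 1 (p ^ 2) * (1 + p) ^ 2 ≤ p ^ 2 * (1 + p) ^ 2 :=
        mul_le_mul_of_nonneg_right this (by positivity)
      have h6 : (1 + p) ^ 2 ≤ 4 := by nlinarith
      nlinarith [sq_nonneg p]
  rw [← hp2]
  calc min 1 (p ^ 2) / ((l + 1 : ℕ) : ℝ) ^ 2 * Real.sqrt ((l + 1 : ℕ) : ℝ)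
      = min 1 (p ^ 2) * (D ^ 2 / (p ^ 3 * r)) := by
        rw [hs', hL']
        field_simp
    _ ≤ (4 * p ^ 2 / (1 + p) ^ 2) * (D ^ 2 / (p ^ 3 * r)) := by
        refine mul_le_mul_of_nonneg_right ?_ (by positivity)
        rw [le_div_iff₀ (by positivity)]
        exact h3
    _ = 8 * r * (D / (2 * p * (1 + p) ^ 2)) := by
        rw [← hr2]
        field_simp
        ring
    _ ≤ 8 * r * (p / (1 + p) - q / (1 + q)) := mul_le_mul_of_nonneg_left h2 (by positivity)

theorem aa_sum (D : ℝ) (hD : 0 < D) (N : ℕ) :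
    ∑ l ∈ Finset.range N, aa D l ≤ 8 * Real.sqrt D := by
  have h : ∀ N : ℕ, ∑ l ∈ Finset.range (N + 1), aa D l ≤
      8 * Real.sqrt D * (Real.sqrt (N * D) / (1 + Real.sqrt (N * D))) := by
    intro N
    induction N with
    | zero => simp [aa]
    | succ N ih =>
      rw [Finset.sum_range_succ]
      have := aa_step D hD N
      have e : 8 * Real.sqrt D * (Real.sqrt ((N + 1 : ℕ) * D) / (1 + Real.sqrt ((N + 1 : ℕ) * D)) -
        Real.sqrt (N * D) / (1 + Real.sqrt (N * D))) =
        8 * Real.sqrt D * (Real.sqrt ((N + 1 : ℕ) * D) / (1 + Real.sqrt ((N + 1 : ℕ) * D))) -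
        8 * Real.sqrt D * (Real.sqrt (N * D) / (1 + Real.sqrt (N * D))) := by ring
      linarith
  rcases N with _ | N
  · simp
  · refine (h N).trans ?_
    have h1 : Real.sqrt (N * D) / (1 + Real.sqrt (N * D)) ≤ 1 :=
      (div_le_one (by positivity)).2 (by linarith)
    have h2 : 0 ≤ 8 * Real.sqrt D := by positivity
    nlinarith

theorem aa_summable (D : ℝ) (hD : 0 < D) : Summable (aa D) :=
  summable_of_sum_range_le (aa_nonneg D hD) (aa_sum D hD)

theorem aa_tsum (D : ℝ) (hD : 0 < D) : ∑' l, aa D l ≤ 8 * Real.sqrt D :=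
  Real.tsum_le_of_sum_range_le (aa_nonneg D hD) (aa_sum D hD)

/-- the second summand -/
noncomputable def bb (D : ℝ) (l : ℕ) : ℝ := min 1 ((l : ℝ) * D) / (l : ℝ) ^ 2 * (Real.sqrt l)⁻¹

theorem bb_nonneg (D : ℝ) (hD : 0 < D) (l : ℕ) : 0 ≤ bb D l := by
  unfold bb
  have : 0 ≤ min 1 ((l : ℝ) * D) := le_min zero_le_one (by positivity)
  positivity

theorem bb_le (D : ℝ) (hD : 0 < D) (l : ℕ) : bb D l ≤ D * aa 1 l := by
  unfold bb aa
  rcases Nat.eq_zero_or_pos l with rfl | hl
  · simp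
  have hl1 : (1 : ℝ) ≤ l := by exact_mod_cast hl
  have h1 : min 1 ((l : ℝ) * 1) = 1 := min_eq_left (by linarith)
  rw [h1]
  have h2 : min 1 ((l : ℝ) * D) ≤ l * D := min_le_right _ _
  have hs : 0 < Real.sqrt (l : ℝ) := Real.sqrt_pos.2 (by linarith)
  have hs2 : Real.sqrt (l : ℝ) * Real.sqrt l = l := Real.mul_self_sqrt (by linarith)
  calc min 1 ((l : ℝ) * D) / (l : ℝ) ^ 2 * (Real.sqrt l)⁻¹
      ≤ (l * D) / (l : ℝ) ^ 2 * (Real.sqrt l)⁻¹ := by
        refine mul_le_mul_of_nonneg_right ?_ (by positivity)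
        exact div_le_div_of_nonneg_right h2 (by positivity)
    _ = D * (1 / (l : ℝ) ^ 2 * Real.sqrt l) := by
        have hl0 : (l : ℝ) ≠ 0 := by linarith
        field_simp
        nlinarith [hs2]

theorem bb_summable (D : ℝ) (hD : 0 < D) : Summable (bb D) :=
  Summable.of_nonneg_of_le (bb_nonneg D hD) (bb_le D hD) ((aa_summable 1 one_pos).mul_left D)

theorem bb_tsum (D : ℝ) (hD : 0 < D) : ∑' l, bb D l ≤ 8 * D := by
  have h1 : ∑' l, bb D l ≤ ∑' l, D * aa 1 l :=
    (bb_summable D hD).tsum_le_tsum (bb_le D hD) ((aa_summable 1 one_pos).mul_left D)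
  rw [tsum_mul_left] at h1
  have h2 := aa_tsum 1 one_pos
  rw [Real.sqrt_one] at h2
  nlinarith

theorem psiSum (h1 : Vdc) (h2 : PsiApprox) : PsiSum := by
  obtain ⟨C, hC, hV⟩ := h1
  obtain ⟨C2, hC2, hP⟩ := h2
  refine ⟨C2 * (2 + 864 * C), by positivity, ?_⟩
  intro B B' α D hB hBB hB3 hα hD hD1
  have hB0 : (0 : ℝ) < B := by exact_mod_cast hB
  have hB1 : (1 : ℝ) ≤ B := by exact_mod_cast hB
  have hB'3 : (B' : ℝ) ≤ 3 * B := by exact_mod_cast hB3
  set M1 := Real.sqrt (α / B) with hM1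
  set M2 := Real.sqrt ((B : ℝ) ^ 3 / α) with hM2
  have hM10 : 0 ≤ M1 := Real.sqrt_nonneg _
  have hM20 : 0 ≤ M2 := Real.sqrt_nonneg _
  set E : ℕ → ℝ := fun l => 27 * C * (M1 * Real.sqrt l + 4 * M2 * (Real.sqrt l)⁻¹) with hE
  -- exponential sums
  have hexp : ∀ l : ℕ, 1 ≤ l → ‖∑ n ∈ Finset.Ioc B B', ee (l * (α / n))‖ ≤ E l := by
    intro l hl
    have hl0 : (0 : ℝ) < l := by exact_mod_cast hl
    have hsl : 0 < Real.sqrt (l : ℝ) := Real.sqrt_pos.2 hl0
    rcases hBB.eq_or_lt with h | hlt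
    · rw [← h]
      simp only [Finset.Ioc_self, Finset.sum_empty, norm_zero, hE]
      positivity
    have hBB' : (B : ℝ) < B' := by exact_mod_cast hlt
    set lam : ℝ := 2 * l * α / (27 * (B : ℝ) ^ 3) with hlam
    have hlam0 : 0 < lam := by rw [hlam]; positivity
    have key := hV (fun x => l * α / x) (fun x => -(l * α) / x ^ 2) (fun x => 2 * (l * α) / x ^ 3)
      B B' lam 27 hlt hlam0 (by norm_num) ?_ ?_ ?_
    · -- use the estimate
      have e0 : ∀ n ∈ Finset.Ioc B B', ee (l * (α / n)) = ee (l * α / n) := by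
        intro n _; congr 1; ring
      rw [Finset.sum_congr rfl e0]
      refine key.trans ?_
      have s1 : Real.sqrt lam = Real.sqrt (2 / 27) * (M1 * Real.sqrt l / B) := by
        have : lam = 2 / 27 * ((α / B) * l / (B : ℝ) ^ 2) := by
          rw [hlam]; field_simp
        have s0 : Real.sqrt (α / B * l / (B : ℝ) ^ 2) = M1 * Real.sqrt l / B := by
          rw [Real.sqrt_div (by positivity), Real.sqrt_mul (by positivity),
            Real.sqrt_sq hB0.le]
        rw [this, Real.sqrt_mul (by norm_num), s0]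
      have s2 : 1 / Real.sqrt lam = Real.sqrt (27 / 2) * (M2 * (Real.sqrt l)⁻¹) := by
        rw [← Real.sqrt_inv, hM2, ← Real.sqrt_mul (by positivity), ← Real.sqrt_mul (by norm_num),
          one_div, ← Real.sqrt_inv]
        congr 1
        rw [hlam]
        field_simp
      have s3 : Real.sqrt (2 / 27) ≤ 1 / 2 := by
        rw [Real.sqrt_le_left (by norm_num)]; norm_num
      have s4 : Real.sqrt (27 / 2) ≤ 4 := by
        rw [Real.sqrt_le_left (by norm_num)]; norm_num
      have s5 : ((B' : ℝ) - B) * Real.sqrt lam ≤ M1 * Real.sqrt l := by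
        rw [s1]
        have : ((B' : ℝ) - B) * (Real.sqrt (2 / 27) * (M1 * Real.sqrt l / B)) ≤
            (2 * B) * (1 / 2 * (M1 * Real.sqrt l / B)) := by
          refine mul_le_mul (by linarith) ?_ (by positivity) (by positivity)
          exact mul_le_mul_of_nonneg_right s3 (by positivity)
        refine this.trans (le_of_eq ?_)
        field_simp
      have s6 : 1 / Real.sqrt lam ≤ 4 * M2 * (Real.sqrt l)⁻¹ := by
        rw [s2, mul_assoc]
        exact mul_le_mul_of_nonneg_right s4 (by positivity)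
      rw [hE]
      have : C * 27 * (((B' : ℝ) - B) * Real.sqrt lam + 1 / Real.sqrt lam) ≤
          C * 27 * (M1 * Real.sqrt l + 4 * M2 * (Real.sqrt l)⁻¹) :=
        mul_le_mul_of_nonneg_left (add_le_add s5 s6) (by positivity)
      refine this.trans (le_of_eq ?_)
      ring
    · intro x hx
      have hx0 : x ≠ 0 := by linarith [hx.1]
      have := (hasDerivAt_inv hx0).const_mul (l * α)
      refine (this.congr_of_eventuallyEq (Filter.Eventually.of_forall fun y => ?_)).congr_deriv ?_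
      · simp [div_eq_mul_inv]
      · field_simp
    · intro x hx
      have hx0 : x ≠ 0 := by linarith [hx.1]
      have h3 : HasDerivAt (fun x : ℝ => (x ^ 2)⁻¹) (-(2 * x) / (x ^ 2) ^ 2) x := by
        have := (hasDerivAt_pow 2 x).fun_inv (by positivity)
        simpa using this
      have := h3.const_mul (-(l * α))
      refine (this.congr_of_eventuallyEq (Filter.Eventually.of_forall fun y => ?_)).congr_deriv ?_
      · simp [div_eq_mul_inv]
      · field_simp
    · intro x hx
      have hx0 : 0 < x := by linarith [hx.1]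
      have hxB : (B : ℝ) ^ 3 ≤ x ^ 3 := pow_le_pow_left₀ hB0.le hx.1 3
      have hxB' : x ^ 3 ≤ 27 * (B : ℝ) ^ 3 := by
        have := pow_le_pow_left₀ hx0.le (hx.2.trans hB'3) 3
        refine this.trans (le_of_eq (by ring))
      have hla : 0 < 2 * ((l : ℝ) * α) := by positivity
      constructor
      · rw [hlam, mul_assoc]
        exact div_le_div_of_nonneg_left hla.le (by positivity) hxB'
      · have e : 27 * lam = 2 * (l * α) / (B : ℝ) ^ 3 := by
          rw [hlam]; field_simp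
        rw [e]
        exact div_le_div_of_nonneg_left hla.le (by positivity) hxB
  -- summability
  have hterm : ∀ l : ℕ, min 1 ((l : ℝ) * D) / (l : ℝ) ^ 2 * E l =
      27 * C * M1 * aa D l + 27 * C * (4 * M2) * bb D l := by
    intro l
    simp only [hE, aa, bb]
    ring
  have hsum : Summable (fun l : ℕ => min 1 ((l : ℝ) * D) / (l : ℝ) ^ 2 * E l) := by
    simp only [hterm]
    exact ((aa_summable D hD).mul_left _).add ((bb_summable D hD).mul_left _)
  have hfin := hP (Finset.Ioc B B') (fun n => α / n) D hD hD1 E hexp hsum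
  have htsum : ∑' l : ℕ, min 1 ((l : ℝ) * D) / (l : ℝ) ^ 2 * E l ≤
      27 * C * M1 * (8 * Real.sqrt D) + 27 * C * (4 * M2) * (8 * D) := by
    simp only [hterm]
    rw [((aa_summable D hD).mul_left _).tsum_add ((bb_summable D hD).mul_left _),
      tsum_mul_left, tsum_mul_left]
    exact add_le_add (mul_le_mul_of_nonneg_left (aa_tsum D hD) (by positivity))
      (mul_le_mul_of_nonneg_left (bb_tsum D hD) (by positivity))
  have hcard : ((Finset.Ioc B B').card : ℝ) ≤ 2 * B := by
    rw [Nat.card_Ioc, Nat.cast_sub hBB]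
    linarith
  have hsD : 0 < Real.sqrt D := Real.sqrt_pos.2 hD
  have hsD2 : Real.sqrt D * Real.sqrt D = D := Real.mul_self_sqrt hD.le
  have hM3 : M1 / Real.sqrt D = Real.sqrt (α / (B * D)) := by
    rw [hM1, ← Real.sqrt_div (by positivity)]
    congr 1
    field_simp
  have e1 : 1 / D * ∑' l : ℕ, min 1 ((l : ℝ) * D) / (l : ℝ) ^ 2 * E l ≤
      216 * C * Real.sqrt (α / (B * D)) + 864 * C * M2 := by
    rw [← hM3]
    have : 1 / D * ∑' l : ℕ, min 1 ((l : ℝ) * D) / (l : ℝ) ^ 2 * E l ≤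
        1 / D * (27 * C * M1 * (8 * Real.sqrt D) + 27 * C * (4 * M2) * (8 * D)) :=
      mul_le_mul_of_nonneg_left htsum (by positivity)
    refine this.trans (le_of_eq ?_)
    rw [mul_add]
    have f1 : 1 / D * (27 * C * M1 * (8 * Real.sqrt D)) = 216 * C * (M1 / Real.sqrt D) := by
      have f0 : 1 / D * Real.sqrt D = 1 / Real.sqrt D := by
        rw [div_mul_eq_mul_div, one_mul, div_eq_div_iff hD.ne' hsD.ne', one_mul]
        exact hsD2
      calc 1 / D * (27 * C * M1 * (8 * Real.sqrt D)) =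
          216 * C * M1 * (1 / D * Real.sqrt D) := by ring
        _ = 216 * C * (M1 / Real.sqrt D) := by rw [f0]; ring
    have f2 : 1 / D * (27 * C * (4 * M2) * (8 * D)) = 864 * C * M2 := by
      field_simp
      ring
    rw [f1, f2]
  have hM3' : 0 ≤ Real.sqrt (α / (B * D)) := Real.sqrt_nonneg _
  refine hfin.trans ?_
  calc C2 * ((Finset.Ioc B B').card * D +
        1 / D * ∑' l : ℕ, min 1 ((l : ℝ) * D) / (l : ℝ) ^ 2 * E l)
      ≤ C2 * (2 * B * D + (216 * C * Real.sqrt (α / (B * D)) + 864 * C * M2)) := by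
        refine mul_le_mul_of_nonneg_left ?_ hC2.le
        exact add_le_add (mul_le_mul_of_nonneg_right hcard hD.le) e1
    _ ≤ C2 * ((2 + 864 * C) * (B * D + Real.sqrt (α / (B * D)) + M2)) := by
        refine mul_le_mul_of_nonneg_left ?_ hC2.le
        have hBD : 0 ≤ (B : ℝ) * D := by positivity
        have g1 : 0 ≤ C * (B * D) := by positivity
        have g2 : 0 ≤ C * Real.sqrt (α / (B * D)) := by positivity
        nlinarith
    _ = _ := by ring

end Pool.Agent.Helper96.QRH
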